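import Pool.Agent.H30.SL.Stm

set_option autoImplicit false

namespace Pool.Agent.H64.SL

open Pool.Agent.H30.SL

attribute [local instance 100] LieRing.ofAssociativeRing

theorem rn_append {L : Type} [LieRing L] (A : ℕ → L) (u v : List ℕ) (x : L) :
    rn A (u ++ v) x = rn A u (rn A v x) := by
  unfold rn
  rw [List.foldr_append]

theorem lie_mem_of_span {K : Type} [Field K] (U : FreeLieAlgebra K ℕ)
    (S : Set (FreeLieAlgebra K ℕ)) (P : Submodule K (FreeLieAlgebra K ℕ))
    (h : ∀ g ∈ S, ⁅U, g⁆ ∈ P) (y : FreeLieAlgebra K ℕ) (hy : y ∈ Submodule.span K S) :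
    ⁅U, y⁆ ∈ P := by
  induction hy using Submodule.span_induction with
  | mem g hg => exact h g hg
  | zero => rw [lie_zero]; exact P.zero_mem
  | add u v _ _ hu hv => rw [lie_add]; exact P.add_mem hu hv
  | smul c u _ hu => rw [lie_smul]; exact P.smul_mem c hu

/-- `ad T` applied to `x` -/
theorem ad_mem {K : Type} [Field K] {l : List ℕ} {T : FreeLieAlgebra K ℕ} (hT : MW K l T) :
    ∀ x : FreeLieAlgebra K ℕ, ⁅T, x⁆ ∈ Submodule.span K {y | ∃ w : List ℕ, w.Perm l ∧
      y = rn (FreeLieAlgebra.of K) w x} := by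
  induction hT with
  | of i =>
    intro x
    exact Submodule.subset_span ⟨[i], List.Perm.refl _, rfl⟩
  | @lie s t U V hU hV ihU ihV =>
    intro x
    rw [lie_lie]
    apply Submodule.sub_mem
    · refine lie_mem_of_span U _ _ ?_ _ (ihV x)
      rintro g ⟨w, hw, rfl⟩
      refine Submodule.span_mono ?_ (ihU (rn (FreeLieAlgebra.of K) w x))
      rintro y ⟨w', hw', rfl⟩
      exact ⟨w' ++ w, hw'.append hw, (rn_append _ _ _ _).symm⟩
    · refine lie_mem_of_span V _ _ ?_ _ (ihU x)
      rintro g ⟨w, hw, rfl⟩
      refine Submodule.span_mono ?_ (ihV (rn (FreeLieAlgebra.of K) w x))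
      rintro y ⟨w', hw', rfl⟩
      exact ⟨w' ++ w, (hw'.append hw).trans List.perm_append_comm, (rn_append _ _ _ _).symm⟩

theorem t_NRM : S_NRM := by
  intro K _ l l' a T hT
  induction hT generalizing l' with
  | of i =>
    intro h
    have h1 := List.perm_singleton.1 h.symm
    have h2 : a = i ∧ l' = [] := by simpa using h1
    obtain ⟨rfl, rfl⟩ := h2
    exact Submodule.subset_span ⟨[], List.Perm.refl _, rfl⟩
  | @lie s t U V hU hV ihU ihV =>
    intro h
    have ha : a ∈ s ++ t := h.symm.subset (by simp)
    by_cases hat : a ∈ t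
    · have h1 := ihV (t.erase a) (List.perm_cons_erase hat)
      refine lie_mem_of_span U _ _ ?_ _ h1
      rintro g ⟨w, hw, rfl⟩
      refine Submodule.span_mono ?_ (ad_mem hU (rn (FreeLieAlgebra.of K) w (FreeLieAlgebra.of K a)))
      rintro y ⟨w', hw', rfl⟩
      refine ⟨w' ++ w, ?_, (rn_append _ _ _ _).symm⟩
      have h2 : (a :: (s ++ t.erase a)).Perm (a :: l') := by
        refine List.Perm.trans ?_ h
        refine List.Perm.trans List.perm_middle.symm ?_
        exact (List.Perm.refl s).append (List.perm_cons_erase hat).symm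
      exact (hw'.append hw).trans ((List.perm_cons a).1 h2)
    · have has : a ∈ s := by
        rcases List.mem_append.1 ha with h3 | h3
        · exact h3
        · exact absurd h3 hat
      have h1 := ihU (s.erase a) (List.perm_cons_erase has)
      rw [← lie_skew]
      apply Submodule.neg_mem
      refine lie_mem_of_span V _ _ ?_ _ h1
      rintro g ⟨w, hw, rfl⟩
      refine Submodule.span_mono ?_ (ad_mem hV (rn (FreeLieAlgebra.of K) w (FreeLieAlgebra.of K a)))
      rintro y ⟨w', hw', rfl⟩
      refine ⟨w' ++ w, ?_, (rn_append _ _ _ _).symm⟩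
      have h2 : (a :: (t ++ s.erase a)).Perm (a :: l') := by
        refine List.Perm.trans ?_ h
        refine List.Perm.trans List.perm_middle.symm ?_
        refine ((List.Perm.refl t).append (List.perm_cons_erase has).symm).trans List.perm_append_comm
      exact (hw'.append hw).trans ((List.perm_cons a).1 h2)

end Pool.Agent.H64.SL
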